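import Pool.Agent.helper57.PP.Spec

/-!
# Row INR: a vertex off the path which is below the path has its whole star below
-/

set_option autoImplicit false

namespace Pool.Agent.helper57.PP

open Finset

theorem INR : INR_stmt := by
  intro W _ T R a z bs ts C hD hS v hvC hv
  have hNsub : cof R {v} ⊆ cof T {v} := cof_mono hS.sub _
  have hepe : ∀ e : Finset W, v ∈ e → e ∉ pe C := fun e hve he => hvC (mem_of_mem_pe he hve)
  have hbd : ∀ e : Finset W, v ∈ e → (e ∈ bd R ↔ e ∈ pe (pth a bs z)) := by
    intro e hve
    rw [hS.bdR, Finset.mem_symmDiff]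
    have := hepe e hve
    tauto
  have hne : (cof R {v}).Nonempty := by
    rcases hv with hv | hv
    · obtain ⟨t, ht, hvt⟩ := mem_vs.1 hv
      exact ⟨t, mem_cof.2 ⟨ht, by simpa using hvt⟩⟩
    · have hvp : v ∈ pth a bs z := by
        unfold pth
        simp [hv]
      obtain ⟨e, he, hve⟩ := exists_pe_of_mem hvp
      have h1 := (hbd e hve).2 he
      have h2 := (mem_bd.1 h1).2.pos
      obtain ⟨t, ht⟩ := Finset.card_pos.1 h2
      rw [mem_cof] at ht
      exact ⟨t, mem_cof.2 ⟨ht.1, by simpa using ht.2 hve⟩⟩
  have hall : ∀ e : Finset W, e.card = 2 → v ∈ e →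
      cof (cof R {v}) e = ∅ ∨ cof (cof R {v}) e = cof T e := by
    intro e he hve
    rw [cof_cof R hve]
    have hle : (cof R e).card ≤ (cof T e).card := Finset.card_le_card (cof_mono hS.sub e)
    have h2 := hD.le2 e he
    by_cases hp : e ∈ pe (pth a bs z)
    · right
      have h1 := (hbd e hve).2 hp
      have h3 := (mem_bd.1 h1).2
      have h4 : e ∈ bd T := by
        rw [hD.bdT, Finset.mem_union]
        exact Or.inl hp
      have h5 := (mem_bd.1 h4).2
      apply Finset.eq_of_subset_of_card_le (cof_mono hS.sub e)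
      rw [Nat.odd_iff] at h3 h5
      omega
    · have h1 : ¬ Odd (cof R e).card := by
        intro ho
        exact hp ((hbd e hve).1 (mem_bd.2 ⟨he, ho⟩))
      rw [Nat.odd_iff] at h1
      by_cases h0 : (cof R e).card = 0
      · left
        exact Finset.card_eq_zero.1 h0
      · right
        apply Finset.eq_of_subset_of_card_le (cof_mono hS.sub e)
        omega
  have heq := hD.star v (cof R {v}) hNsub hne hall
  refine ⟨?_, ?_⟩
  · rw [← heq]
    exact cof_subset R _
  · obtain ⟨t, ht⟩ := hne
    rw [mem_cof] at ht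
    exact mem_vs.2 ⟨t, ht.1, ht.2 (Finset.mem_singleton_self v)⟩

end Pool.Agent.helper57.PP
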