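import Pool.Agent.helper57.PP.Spec

/-!
# Row TQR: in every window all vertices are led to the root
-/

set_option autoImplicit false

namespace Pool.Agent.helper57.PP

open Finset

/-- the number of the elements with smaller value -/
def TQR_rk {V : Type} [Fintype V] (f : V → ℚ) (v : V) : ℕ := (univ.filter fun u => f u < f v).card

theorem TQR_rk_lt {V : Type} [Fintype V] (f : V → ℚ) {w v : V} (h : f w < f v) :
    TQR_rk f w < TQR_rk f v := by
  unfold TQR_rk
  apply Finset.card_lt_card
  rw [Finset.ssubset_iff_of_subset]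
  · refine ⟨w, ?_, ?_⟩
    · rw [mem_filter]
      exact ⟨mem_univ _, h⟩
    · rw [mem_filter]
      exact fun h' => lt_irrefl _ h'.2
  · intro u hu
    rw [mem_filter] at hu ⊢
    exact ⟨mem_univ _, hu.2.trans h⟩

theorem TQR_rk_lt_card {V : Type} [Fintype V] (f : V → ℚ) (v : V) :
    TQR_rk f v < Fintype.card V := by
  unfold TQR_rk
  rw [← Finset.card_univ]
  apply Finset.card_lt_card
  rw [Finset.ssubset_iff_of_subset (Finset.subset_univ _)]
  refine ⟨v, mem_univ _, ?_⟩
  rw [mem_filter]
  exact fun h' => lt_irrefl _ h'.2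

/-- it suffices to treat the vertices which are not sent to the root -/
theorem TQR_red {V : Type} [DecidableEq V] (s : V) (f : V → V) (r : V → ℕ)
    (h : ∀ v, v ≠ s → f v ≠ s → r (f v) < r v) :
    ∃ r' : V → ℕ, ∀ v, v ≠ s → r' (f v) < r' v := by
  refine ⟨fun v => if v = s then 0 else r v + 1, ?_⟩
  intro v hv
  simp only [if_neg hv]
  by_cases hw : f v = s
  · rw [if_pos hw]
    omega
  · rw [if_neg hw]
    have := h v hv hw
    omega

theorem TQR : TQR_stmt := by
  intro V _ _ s Z T1 T2 T3 φ β θ δ h k c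
  have hcomm : ∀ (A B : V → V), (∃ r : V → ℕ, ∀ v, v ≠ s → r ((fun v => if φ v ≤ c then A v else B v) v)
      < r v) → ∃ r : V → ℕ, ∀ v, v ≠ s → r (if φ v ≤ c then A v else B v) < r v :=
    fun A B h => h
  fin_cases k
  · apply hcomm
    show ∃ r : V → ℕ, ∀ v, v ≠ s → r ((fun v => if φ v ≤ c then T2 v else T1 v) v) < r v
    apply TQR_red s _
      (fun v => if φ v ≤ c ∨ v ∈ Z then TQR_rk β v else Fintype.card V + δ v)
    intro v hv hw
    try dsimp only at hw ⊢
    by_cases h1 : φ v ≤ c
    · rw [if_pos h1] at hw ⊢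
      rw [if_pos (Or.inl h1)]
      obtain ⟨h2, h3, h4⟩ := h.t2 v hv hw
      have h5 : φ (T2 v) ≤ c ∨ T2 v ∈ Z := by
        by_cases h6 : T2 v ∈ Z
        · exact Or.inr h6
        · exact Or.inl ((h3 h6).le.trans h1)
      rw [if_pos h5]
      exact TQR_rk_lt β h2
    · rw [if_neg h1] at hw ⊢
      by_cases h2 : v ∈ Z
      · obtain ⟨h3, h4, h5⟩ := h.t1Z v h2 hw
        rw [if_pos (Or.inr h3), if_pos (Or.inr h2)]
        exact TQR_rk_lt β h5
      · have hn : ¬ (φ v ≤ c ∨ v ∈ Z) := by tauto
        rw [if_neg hn]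
        have h3 := h.t1 v hv hw
        have h4 := TQR_rk_lt_card β (T1 v)
        split_ifs <;> omega
  · apply hcomm
    show ∃ r : V → ℕ, ∀ v, v ≠ s → r ((fun v => if φ v ≤ c then T3 v else T2 v) v) < r v
    apply TQR_red s _ (TQR_rk (fun v => if φ v ≤ c then θ v else β v))
    intro v hv hw
    apply TQR_rk_lt
    try dsimp only at hw ⊢
    by_cases h1 : φ v ≤ c
    · rw [if_pos h1] at hw
      simp only [if_pos h1]
      obtain ⟨h2, h3, h4⟩ := h.t3 v hv hw
      by_cases h5 : φ (T3 v) ≤ c
      · rw [if_pos h5]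
        exact h2
      · rw [if_neg h5]
        have h6 : T3 v ∉ Z := fun h6 => h5 ((h4 h6).le.trans h1)
        rw [h.eq _ hw h6]
        exact h2
    · rw [if_neg h1] at hw
      simp only [if_neg h1]
      obtain ⟨h2, h3, h4⟩ := h.t2 v hv hw
      by_cases h5 : φ (T2 v) ≤ c
      · rw [if_pos h5]
        have h6 : T2 v ∉ Z := fun h6 => h1 ((h4 h6).le.trans h5)
        rw [← h.eq _ hw h6]
        exact h2
      · rw [if_neg h5]
        exact h2
  · apply hcomm
    show ∃ r : V → ℕ, ∀ v, v ≠ s → r ((fun v => if φ v ≤ c then T1 v else T3 v) v) < r v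
    apply TQR_red s _
      (fun v => if φ v ≤ c then (if v ∈ Z then TQR_rk φ v else 2 * Fintype.card V + δ v)
        else Fintype.card V + TQR_rk θ v)
    intro v hv hw
    try dsimp only at hw ⊢
    by_cases h1 : φ v ≤ c
    · rw [if_pos h1] at hw
      simp only [if_pos h1]
      by_cases h2 : v ∈ Z
      · obtain ⟨h3, h4, h5⟩ := h.t1Z v h2 hw
        rw [if_pos (h4.le.trans h1), if_pos h3, if_pos h2]
        exact TQR_rk_lt φ h4
      · rw [if_neg h2]
        have h3 := h.t1 v hv hw
        have h4 := TQR_rk_lt_card φ (T1 v)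
        have h5 := TQR_rk_lt_card θ (T1 v)
        split_ifs <;> omega
    · rw [if_neg h1] at hw
      simp only [if_neg h1]
      obtain ⟨h2, h3, h4⟩ := h.t3 v hv hw
      by_cases h5 : φ (T3 v) ≤ c
      · have h6 : T3 v ∈ Z := by
          by_contra h6
          exact h1 ((h3 h6).le.trans h5)
        rw [if_pos h5, if_pos h6]
        have h7 := TQR_rk_lt_card φ (T3 v)
        omega
      · rw [if_neg h5]
        have h7 := TQR_rk_lt θ h2
        omega

end Pool.Agent.helper57.PP
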